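import Pool.Agent.W406.PX.Stmts

/-!
PX-CELLF: the forcing in one cell.
-/

set_option autoImplicit false

open Finset MeasureTheory

namespace Pool.Agent.W140.PX
open Pool.Agent.W406.PX

theorem pow_step (j k : ℕ) : j ^ (k + 1) + (k + 1) * j ^ k ≤ (j + 1) ^ (k + 1) := by
  induction k with
  | zero => simp
  | succ k ih =>
    calc j ^ (k + 1 + 1) + (k + 1 + 1) * j ^ (k + 1)
        ≤ (j + 1) * (j ^ (k + 1) + (k + 1) * j ^ k) := by
          have e : (j + 1) * (j ^ (k + 1) + (k + 1) * j ^ k) =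
            j ^ (k + 1 + 1) + (k + 1 + 1) * j ^ (k + 1) + (k + 1) * j ^ k := by ring
          rw [e]
          exact Nat.le_add_right _ _
      _ ≤ (j + 1) * (j + 1) ^ (k + 1) := Nat.mul_le_mul_left _ ih
      _ = (j + 1) ^ (k + 1 + 1) := by ring

theorem gw_nonneg (n : ℕ) : 0 ≤ gw n := by
  unfold gw
  split_ifs
  · positivity
  · exact le_refl _

theorem Gs_nonneg (a b : ℕ) : 0 ≤ Gs a b := sum_nonneg fun n _ => gw_nonneg n

theorem task : TaskCellF := by
  rintro ⟨q₀, hq₀⟩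
  refine ⟨max q₀ 1, fun q hq => ?_⟩
  have hq1 : 1 ≤ q := (le_max_right _ _).trans hq
  obtain ⟨η, hη, H⟩ := hq₀ q ((le_max_left _ _).trans hq)
  obtain ⟨J₀, hJ⟩ := H (1 / 3) (by norm_num)
  refine ⟨min 1 (η ^ 2 / 2) / 2, by positivity, max J₀ 3, fun j hj A B hA1 hA2 hB1 hB2 => ?_⟩
  have hjJ : J₀ ≤ j := (le_max_left _ _).trans hj
  have hj3 : 3 ≤ j := (le_max_right _ _).trans hj
  obtain ⟨k, hk⟩ : ∃ k, 2 * q = k + 1 := ⟨2 * q - 1, by omega⟩
  have hk1 : 2 * q - 1 = k := by omega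
  have hk2 : 1 ≤ k := by omega
  have hstep := pow_step j k
  rw [← hk] at hstep
  have hjk : 1 ≤ j ^ k := Nat.one_le_pow _ _ (by omega)
  have hstep2 : j ^ (2 * q) + 2 * j ^ k ≤ (j + 1) ^ (2 * q) := by
    refine le_trans ?_ hstep
    have : 2 * j ^ k ≤ 2 * q * j ^ k := Nat.mul_le_mul_right _ (by omega)
    omega
  have hT12 : (j + 1) ^ (2 * q) ≤ (j + 2) ^ (2 * q) := Nat.pow_le_pow_left (by omega) _
  have hT23 : (j + 2) ^ (2 * q) ≤ (j + 3) ^ (2 * q) := Nat.pow_le_pow_left (by omega) _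
  have hAB8 : 14 * j ^ k ≤ 8 * (B - A) := by omega
  have hAB : A ≤ B := by omega
  set mid : ℕ := (A + B) / 2 with hmid
  have hm1 : A ≤ mid := by omega
  have hm2 : mid ≤ B := by omega
  have hL1 : 8 * j ^ k ≤ 24 * (mid - A) := by omega
  have hL2 : 8 * j ^ k ≤ 24 * (B - mid) := by omega
  have hL1' : 1 ≤ mid - A := by omega
  have hL12 : mid - A ≤ B - mid := by omega
  have hL21 : B - mid ≤ 2 * (mid - A) := by omega
  -- real versions
  have cL1 : ((mid - A : ℕ) : ℝ) = (mid : ℝ) - A := by push_cast [Nat.cast_sub hm1]; ring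
  have cL2 : ((B - mid : ℕ) : ℝ) = (B : ℝ) - mid := by push_cast [Nat.cast_sub hm2]; ring
  set L1 : ℝ := (mid : ℝ) - A with hL1def
  set L2 : ℝ := (B : ℝ) - mid with hL2def
  have rL1 : (1 / 3 : ℝ) * (j : ℝ) ^ (2 * q - 1) ≤ L1 := by
    rw [hk1, ← cL1]
    have : ((8 * j ^ k : ℕ) : ℝ) ≤ ((24 * (mid - A) : ℕ) : ℝ) := by exact_mod_cast hL1
    push_cast at this ⊢
    linarith
  have rL2 : (1 / 3 : ℝ) * (j : ℝ) ^ (2 * q - 1) ≤ L2 := by
    rw [hk1, ← cL2]
    have : ((8 * j ^ k : ℕ) : ℝ) ≤ ((24 * (B - mid) : ℕ) : ℝ) := by exact_mod_cast hL2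
    push_cast at this ⊢
    linarith
  have rpos : 0 < L1 := by
    rw [← cL1]; exact_mod_cast hL1'
  have r12 : L1 ≤ L2 := by rw [← cL1, ← cL2]; exact_mod_cast hL12
  have r21 : L2 ≤ 2 * L1 := by rw [← cL1, ← cL2]; exact_mod_cast hL21
  obtain ⟨g1, g2, -⟩ := hJ j hjJ A mid hA1 (by omega) rL1
  obtain ⟨g3, g4, -⟩ := hJ j hjJ mid B (by omega) (by omega) rL2
  clear hJ H hq₀ hstep hstep2 hT12 hT23 hAB8 hA1 hA2 hB1 hB2 hL1 hL2 rL1 rL2 hL12 hL21 hL1' hjk
  have hlog : 0 < (Real.log j) ^ 3 := by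
    have : 0 < Real.log j := Real.log_pos (by exact_mod_cast (by omega : 1 < j))
    positivity
  set Λ : ℝ := (Real.log j) ^ 3 with hΛ
  set UL : ℝ := Gs A mid with hUL
  set UR : ℝ := Gs mid B with hUR
  have g1' : η * L1 ≤ UL * Λ := by rwa [div_le_iff₀ hlog] at g1
  have g2' : η * UL * Λ ≤ L1 := by rwa [le_div_iff₀ hlog] at g2
  have g3' : η * L2 ≤ UR * Λ := by rwa [div_le_iff₀ hlog] at g3
  have g4' : η * UR * Λ ≤ L2 := by rwa [le_div_iff₀ hlog] at g4
  have hULpos : 0 < UL := by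
    by_contra h
    push Not at h
    have h1 : UL * Λ ≤ 0 := mul_nonpos_of_nonpos_of_nonneg h hlog.le
    have h2 : 0 < η * L1 := by positivity
    linarith
  have hURpos : 0 < UR := by
    by_contra h
    push Not at h
    have h1 : UR * Λ ≤ 0 := mul_nonpos_of_nonpos_of_nonneg h hlog.le
    have h2 : 0 < η * L2 := mul_pos hη (rpos.trans_le r12)
    linarith
  -- comparison
  have hc1 : η ^ 2 / 2 * UL ≤ UR := by
    have h1 : η * (η * UL * Λ) ≤ η * L1 := mul_le_mul_of_nonneg_left g2' hη.le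
    have h2 : η * L1 ≤ η * L2 := mul_le_mul_of_nonneg_left r12 hη.le
    have h3 : (η ^ 2 * UL) * Λ ≤ UR * Λ :=
      calc (η ^ 2 * UL) * Λ = η * (η * UL * Λ) := by ring
        _ ≤ UR * Λ := h1.trans (h2.trans g3')
    have h4 : η ^ 2 * UL ≤ UR := le_of_mul_le_mul_right h3 hlog
    have h5 : 0 ≤ η ^ 2 * UL := by positivity
    linarith
  have hc2 : η ^ 2 / 2 * UR ≤ UL := by
    have h1 : η * (η * UR * Λ) ≤ η * L2 := mul_le_mul_of_nonneg_left g4' hη.le
    have h2 : η * L2 ≤ η * (2 * L1) := mul_le_mul_of_nonneg_left r21 hη.le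
    have h3 : (η ^ 2 / 2 * UR) * Λ ≤ UL * Λ :=
      calc (η ^ 2 / 2 * UR) * Λ = (η * (η * UR * Λ)) / 2 := by ring
        _ ≤ (η * (2 * L1)) / 2 := by
            apply div_le_div_of_nonneg_right (h1.trans h2) (by norm_num)
        _ = η * L1 := by ring
        _ ≤ UL * Λ := g1'
    exact le_of_mul_le_mul_right h3 hlog
  set mn : ℝ := min UL UR with hmn
  have hmnpos : 0 < mn := lt_min hULpos hURpos
  set α : ℝ := mn / (2 * UL) with hα
  set β : ℝ := mn / (2 * UR) with hβ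
  set c₁ : ℝ := min 1 (η ^ 2 / 2) / 2 with hc₁
  have hα0 : 0 < α := by positivity
  have hβ0 : 0 < β := by positivity
  have hα2 : α ≤ 1 / 2 := by
    rw [hα, div_le_iff₀ (by positivity)]
    have : mn ≤ UL := min_le_left _ _
    linarith
  have hβ2 : β ≤ 1 / 2 := by
    rw [hβ, div_le_iff₀ (by positivity)]
    have : mn ≤ UR := min_le_right _ _
    linarith
  have hm0 : 0 ≤ min 1 (η ^ 2 / 2) := by positivity
  have hcα : c₁ ≤ α := by
    rw [hα, hc₁, le_div_iff₀ (by positivity)]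
    have h1 : min 1 (η ^ 2 / 2) * UL ≤ mn := by
      apply le_min
      · calc min 1 (η ^ 2 / 2) * UL ≤ 1 * UL :=
              mul_le_mul_of_nonneg_right (min_le_left _ _) hULpos.le
          _ = UL := one_mul _
      · exact (mul_le_mul_of_nonneg_right (min_le_right _ _) hULpos.le).trans hc1
    linarith
  have hcβ : c₁ ≤ β := by
    rw [hβ, hc₁, le_div_iff₀ (by positivity)]
    have h1 : min 1 (η ^ 2 / 2) * UR ≤ mn := by
      apply le_min
      · exact (mul_le_mul_of_nonneg_right (min_le_right _ _) hURpos.le).trans hc2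
      · calc min 1 (η ^ 2 / 2) * UR ≤ 1 * UR :=
              mul_le_mul_of_nonneg_right (min_le_left _ _) hURpos.le
          _ = UR := one_mul _
    linarith
  have hbal : α * UL = β * UR := by
    rw [hα, hβ]; field_simp
  set ψ : ℕ → ℝ := fun n => if n ∈ Ioc A mid then α * gw n else if n ∈ Ioc mid B then -(β * gw n)
    else 0 with hψ
  have hψL : ∀ x, x ≤ mid → ∑ n ∈ Ioc A x, ψ n = α * Gs A x := by
    intro x hx
    rw [Gs, mul_sum]
    apply sum_congr rfl
    intro n hn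
    rw [mem_Ioc] at hn
    have : n ∈ Ioc A mid := mem_Ioc.2 ⟨hn.1, hn.2.trans hx⟩
    exact if_pos this
  have hψR : ∀ x, mid ≤ x → ∑ n ∈ Ioc x B, ψ n = -(β * Gs x B) := by
    intro x hx
    rw [Gs, mul_sum, ← sum_neg_distrib]
    apply sum_congr rfl
    intro n hn
    rw [mem_Ioc] at hn
    have h1 : n ∉ Ioc A mid := by
      rw [mem_Ioc]; omega
    have h2 : n ∈ Ioc mid B := mem_Ioc.2 ⟨by omega, hn.2⟩
    exact (if_neg h1).trans (if_pos h2)
  have hsplit : ∀ x, A ≤ x → x ≤ B → ∑ n ∈ Ioc A x, ψ n + ∑ n ∈ Ioc x B, ψ n =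
      ∑ n ∈ Ioc A B, ψ n := by
    intro x h1 h2
    exact sum_Ioc_consecutive ψ h1 h2
  have hzero : ∑ n ∈ Ioc A B, ψ n = 0 := by
    rw [← hsplit mid hm1 hm2, hψL mid (le_refl _), hψR mid (le_refl _)]
    have : α * Gs A mid = β * Gs mid B := hbal
    rw [this, add_neg_cancel]
  refine ⟨ψ, ?_, ?_, hzero, ?_⟩
  · intro n
    have hg := gw_nonneg n
    by_cases h1 : n ∈ Ioc A mid
    · have e : ψ n = α * gw n := if_pos h1
      rw [e, abs_of_nonneg (mul_nonneg hα0.le hg)]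
      exact (mul_le_mul_of_nonneg_right hα2 hg).trans_eq (by ring)
    · by_cases h2 : n ∈ Ioc mid B
      · have e : ψ n = -(β * gw n) := (if_neg h1).trans (if_pos h2)
        rw [e, abs_neg, abs_of_nonneg (mul_nonneg hβ0.le hg)]
        exact (mul_le_mul_of_nonneg_right hβ2 hg).trans_eq (by ring)
      · have e : ψ n = 0 := (if_neg h1).trans (if_neg h2)
        rw [e, abs_zero]
        exact div_nonneg hg (by norm_num)
  · intro n hn
    rw [mem_Ioc] at hn
    have h1 : n ∉ Ioc A mid := by rw [mem_Ioc]; omega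
    have h2 : n ∉ Ioc mid B := by rw [mem_Ioc]; omega
    exact (if_neg h1).trans (if_neg h2)
  · intro x hx1 hx2
    have hc₁0 : 0 ≤ c₁ := by positivity
    rcases le_total x mid with h | h
    · rw [hψL x h]
      have h1 : c₁ * min (Gs A x) (Gs x B) ≤ c₁ * Gs A x :=
        mul_le_mul_of_nonneg_left (min_le_left _ _) hc₁0
      have h2 : c₁ * Gs A x ≤ α * Gs A x := mul_le_mul_of_nonneg_right hcα (Gs_nonneg _ _)
      linarith
    · have h0 := hsplit x hx1 hx2
      rw [hzero, hψR x h] at h0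
      have h1 : c₁ * min (Gs A x) (Gs x B) ≤ c₁ * Gs x B :=
        mul_le_mul_of_nonneg_left (min_le_right _ _) hc₁0
      have h2 : c₁ * Gs x B ≤ β * Gs x B := mul_le_mul_of_nonneg_right hcβ (Gs_nonneg _ _)
      linarith

end Pool.Agent.W140.PX
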